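import Pool.Agent.R208.NucFinal

/-!
# MP_afaa81_pr, Q1: unconstrained nuclear norm minimisation recovers low rank matrices whenever the
pattern sequence admits stable recovery

We prove the statement of Q1: if the binary matrices `P k` admit stable recovery of low rank
matrices and the ranks and entries of the matrices `A k` are uniformly bounded, then every choice of
nuclear norm minimisers (no bound on the entries is imposed) converges to `A k` in the normalised
Frobenius norm.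
-/

namespace Pool.Agent.Results.MP_afaa81_pr.NuclearRecovery

open Filter Topology

/-- The normalised Frobenius norm `(1/(mn) ∑ a_{ij}^2)^{1/2}`. -/
noncomputable def fbar {m n : ℕ} (A : Matrix (Fin m) (Fin n) ℝ) : ℝ :=
  Real.sqrt ((∑ i, ∑ j, A i j ^ 2) / (m * n))

/-- The nuclear norm: the sum of the singular values, that is of the square roots of the
eigenvalues (with multiplicity) of `Xᵀ X`. -/
noncomputable def nuclearNorm {m n : ℕ} (X : Matrix (Fin m) (Fin n) ℝ) : ℝ :=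
  ∑ i, Real.sqrt ((Matrix.isHermitian_conjTranspose_mul_self X).eigenvalues i)

/-- Matrices with entries in `{0, 1}`. -/
def IsBinary {m n : ℕ} (P : Matrix (Fin m) (Fin n) ℝ) : Prop := ∀ i j, P i j = 0 ∨ P i j = 1

/-- The sequence `P` admits stable recovery of low rank matrices. -/
def StableRecovery (m n : ℕ → ℕ) (P : ∀ k, Matrix (Fin (m k)) (Fin (n k)) ℝ) : Prop :=
  ∀ (K : ℕ) (L ε : ℝ), 0 < K → 0 < L → 0 < ε → ∃ δ : ℝ, 0 < δ ∧
    ∀ A B : ∀ k, Matrix (Fin (m k)) (Fin (n k)) ℝ,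
      (∀ k, (A k).rank ≤ K ∧ (B k).rank ≤ K) →
      (∀ k i j, |A k i j| ≤ L ∧ |B k i j| ≤ L) →
      limsup (fun k => fbar ((A k - B k).hadamard (P k))) atTop ≤ δ →
      limsup (fun k => fbar (A k - B k)) atTop ≤ ε

/-- `X` minimises the nuclear norm among the matrices that agree with `A` on the revealed
positions. -/
def IsNuclearMinimiser {m n : ℕ} (A P X : Matrix (Fin m) (Fin n) ℝ) : Prop :=
  X.hadamard P = A.hadamard P ∧
    ∀ B : Matrix (Fin m) (Fin n) ℝ, B.hadamard P = A.hadamard P → nuclearNorm X ≤ nuclearNorm B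

lemma nuclearNorm_eq {m n : ℕ} (X : Matrix (Fin m) (Fin n) ℝ) :
    nuclearNorm X = Pool.Agent.R208.Nuc.nuc X := rfl

lemma fbar_sq {m n : ℕ} (A : Matrix (Fin m) (Fin n) ℝ) :
    fbar A ^ 2 = (∑ i, ∑ j, A i j ^ 2) / (m * n) :=
  Real.sq_sqrt (div_nonneg (Finset.sum_nonneg fun _ _ => Finset.sum_nonneg fun _ _ => sq_nonneg _)
    (by positivity))

lemma fbar_nonneg {m n : ℕ} (A : Matrix (Fin m) (Fin n) ℝ) : 0 ≤ fbar A := Real.sqrt_nonneg _

/-- Stable recovery forces the revealed positions to have positive density on every product of row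
and column sets of positive density. -/
lemma rect_of_stable {m n : ℕ → ℕ} (hm : Tendsto m atTop atTop) (hn : Tendsto n atTop atTop)
    {P : ∀ k, Matrix (Fin (m k)) (Fin (n k)) ℝ} (hP : ∀ k, IsBinary (P k))
    (hS : StableRecovery m n P) (ρ : ℝ) (hρ : 0 < ρ) :
    ∃ δ : ℝ, 0 < δ ∧ ∀ᶠ k in atTop, ∀ (R : Finset (Fin (m k))) (C : Finset (Fin (n k))),
      ρ * ((m k : ℝ) * n k) ≤ R.card * C.card →
        δ * ((m k : ℝ) * n k) < ∑ x ∈ R, ∑ y ∈ C, P k x y := by
  classical
  obtain ⟨δ₀, hδ₀, h⟩ := hS 1 1 (Real.sqrt ρ / 2) one_pos one_pos (by positivity)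
  refine ⟨δ₀ ^ 2, by positivity, ?_⟩
  by_contra hcon
  rw [Filter.not_eventually] at hcon
  set good : ∀ k, Finset (Fin (m k)) × Finset (Fin (n k)) → Prop := fun k RC =>
    ρ * ((m k : ℝ) * n k) ≤ RC.1.card * RC.2.card ∧
      ∑ x ∈ RC.1, ∑ y ∈ RC.2, P k x y ≤ δ₀ ^ 2 * ((m k : ℝ) * n k) with hgood
  set RC : ∀ k, Finset (Fin (m k)) × Finset (Fin (n k)) := fun k =>
    if hk : ∃ RC, good k RC then hk.choose else (∅, ∅) with hRC
  have hRC1 : ∀ k, (∃ RC, good k RC) → good k (RC k) := by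
    intro k hk
    simp only [hRC, hk, dif_pos]
    exact hk.choose_spec
  have hRC2 : ∀ k, ∑ x ∈ (RC k).1, ∑ y ∈ (RC k).2, P k x y ≤ δ₀ ^ 2 * ((m k : ℝ) * n k) := by
    intro k
    by_cases hk : ∃ RC, good k RC
    · exact (hRC1 k hk).2
    · simp only [hRC, hk, dif_neg, not_false_iff]
      simp only [Finset.sum_empty]
      positivity
  set A : ∀ k, Matrix (Fin (m k)) (Fin (n k)) ℝ := fun k =>
    Matrix.vecMulVec (fun x => if x ∈ (RC k).1 then 1 else 0)
      (fun y => if y ∈ (RC k).2 then 1 else 0) with hA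
  have hAval : ∀ k x y, A k x y = if x ∈ (RC k).1 ∧ y ∈ (RC k).2 then 1 else 0 := by
    intro k x y
    simp only [hA, Matrix.vecMulVec_apply]
    by_cases hx : x ∈ (RC k).1 <;> by_cases hy : y ∈ (RC k).2 <;> simp [hx, hy]
  have hAabs : ∀ k x y, |A k x y| ≤ 1 := by
    intro k x y
    rw [hAval]
    split_ifs <;> simp
  have hsumA : ∀ k (f : Fin (m k) → Fin (n k) → ℝ),
      ∑ x, ∑ y, (if x ∈ (RC k).1 ∧ y ∈ (RC k).2 then f x y else 0)
        = ∑ x ∈ (RC k).1, ∑ y ∈ (RC k).2, f x y := by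
    intro k f
    have h1 : ∀ x, ∑ y, (if x ∈ (RC k).1 ∧ y ∈ (RC k).2 then f x y else 0)
        = if x ∈ (RC k).1 then ∑ y ∈ (RC k).2, f x y else 0 := by
      intro x
      by_cases hx : x ∈ (RC k).1
      · simp only [hx, true_and, if_true]
        rw [← Finset.sum_filter]
        congr 1
        ext; simp
      · simp [hx]
    simp_rw [h1]
    rw [← Finset.sum_filter]
    congr 1
    ext; simp
  have hlim := h A (fun _ => 0) (by
      intro k
      refine ⟨?_, by simp⟩
      exact Matrix.rank_vecMulVec_le _ _) (by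
      intro k x y
      exact ⟨hAabs k x y, by simp⟩)
  have hle : limsup (fun k => fbar ((A k - 0).hadamard (P k))) atTop ≤ δ₀ := by
    refine Filter.limsup_le_of_le ?_ ?_
    · exact Filter.isCoboundedUnder_le_of_le atTop (fun k => fbar_nonneg _)
    · refine Filter.Eventually.of_forall fun k => ?_
      refine abs_le_of_sq_le_sq' ?_ hδ₀.le |>.2
      rw [fbar_sq]
      have h1 : ∑ x, ∑ y, ((A k - 0).hadamard (P k)) x y ^ 2
          = ∑ x ∈ (RC k).1, ∑ y ∈ (RC k).2, P k x y := by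
        rw [← hsumA k (fun x y => P k x y)]
        refine Finset.sum_congr rfl fun x _ => Finset.sum_congr rfl fun y _ => ?_
        rw [Matrix.hadamard_apply, sub_zero, hAval]
        split_ifs
        · rcases hP k x y with h0 | h0 <;> rw [h0] <;> norm_num
        · simp
      rw [h1]
      refine div_le_of_le_mul₀ (by positivity) (by positivity) (hRC2 k)
  have hfin := hlim hle
  have hfreq : ∃ᶠ k in atTop, Real.sqrt ρ ≤ fbar (A k - 0) := by
    have hpos : ∀ᶠ k in atTop, 0 < m k ∧ 0 < n k :=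
      (hm.eventually_gt_atTop 0).and (hn.eventually_gt_atTop 0)
    refine (hcon.and_eventually hpos).mono ?_
    rintro k ⟨hk, hmk, hnk⟩
    push Not at hk
    obtain ⟨R, C, h1, h2⟩ := hk
    have hex : ∃ RC, good k RC := ⟨(R, C), h1, h2⟩
    have h3 := (hRC1 k hex).1
    have hm' : (0:ℝ) < m k := by exact_mod_cast hmk
    have hn' : (0:ℝ) < n k := by exact_mod_cast hnk
    refine Real.sqrt_le_sqrt ?_
    rw [le_div_iff₀ (by positivity)]
    refine h3.trans (le_of_eq ?_)
    have h4 : ∑ x, ∑ y, (A k - 0) x y ^ 2 = ∑ x ∈ (RC k).1, ∑ y ∈ (RC k).2, (1:ℝ) := by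
      rw [← hsumA k (fun _ _ => 1)]
      refine Finset.sum_congr rfl fun x _ => Finset.sum_congr rfl fun y _ => ?_
      rw [sub_zero, hAval]
      split_ifs <;> simp
    rw [h4]
    simp
  have hbdd : IsBoundedUnder (· ≤ ·) atTop (fun k => fbar (A k - 0)) := by
    refine Filter.isBoundedUnder_of ⟨1, fun k => ?_⟩
    refine Real.sqrt_le_one.2 ?_
    refine div_le_one_of_le₀ ?_ (by positivity)
    calc ∑ x, ∑ y, (A k - 0) x y ^ 2 ≤ ∑ _x : Fin (m k), ∑ _y : Fin (n k), (1:ℝ) := by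
          refine Finset.sum_le_sum fun x _ => Finset.sum_le_sum fun y _ => ?_
          rw [sub_zero, ← sq_abs]
          exact pow_le_one₀ (abs_nonneg _) (hAabs k x y)
      _ = m k * n k := by simp
  have h5 := Filter.le_limsup_of_frequently_le hfreq hbdd
  have h6 : 0 < Real.sqrt ρ := Real.sqrt_pos.2 hρ
  linarith

/-- **Q1.** If the binary matrices `P k` admit stable recovery of low rank matrices and the ranks
and the entries of the `A k` are uniformly bounded, then every choice of (unconstrained) nuclear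
norm minimisers `X k` for `(A k, P k)` satisfies `fbar (X k - A k) → 0`. -/
theorem result (m n : ℕ → ℕ) (hm : Tendsto m atTop atTop) (hn : Tendsto n atTop atTop)
    (P : ∀ k, Matrix (Fin (m k)) (Fin (n k)) ℝ) (hP : ∀ k, IsBinary (P k))
    (hS : StableRecovery m n P)
    (A : ∀ k, Matrix (Fin (m k)) (Fin (n k)) ℝ)
    (hrank : ∃ K : ℕ, ∀ k, (A k).rank ≤ K) (hbound : ∃ L : ℝ, ∀ k i j, |A k i j| ≤ L)
    (X : ∀ k, Matrix (Fin (m k)) (Fin (n k)) ℝ)
    (hX : ∀ k, IsNuclearMinimiser (A k) (P k) (X k)) :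
    Tendsto (fun k => fbar (X k - A k)) atTop (𝓝 0) := by
  obtain ⟨K, hK⟩ := hrank
  obtain ⟨L₀, hL₀⟩ := hbound
  set L : ℝ := max L₀ 1 with hLdef
  have hL1 : 1 ≤ L := le_max_right _ _
  have hL : 0 < L := by linarith
  have hAL : ∀ k i j, |A k i j| ≤ L := fun k i j => (hL₀ k i j).trans (le_max_left _ _)
  set rK : ℝ := Real.sqrt (K + 1) with hrKdef
  have hrK : 0 < rK := Real.sqrt_pos.2 (by positivity)
  have hrK2 : rK ^ 2 = K + 1 := Real.sq_sqrt (by positivity)
  choose! δf hδf0 hδf using rect_of_stable hm hn hP hS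
  rw [Metric.tendsto_atTop']
  intro ζ hζ
  set Cst : ℝ := 1 + 8 * (rK * L) * (rK * (1 + 2 * L)) + 8 * L ^ 2 with hCst
  have hCpos : 0 < Cst := by positivity
  set η : ℝ := min 1 (ζ ^ 2 / (2 * Cst)) with hηdef
  have hη : 0 < η := lt_min one_pos (by positivity)
  have hη1 : η ≤ 1 := min_le_left _ _
  have hη2 : η ≤ ζ ^ 2 / (2 * Cst) := min_le_right _ _
  have hT : 0 < 2 * rK * L := by positivity
  obtain ⟨J, ρ, hρ, hmulti⟩ := Pool.Agent.R208.Nuc.multi_scale (2 * rK * L) (η ^ 2) η hT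
    (by positivity) hη δf hδf0
  have hev : ∀ᶠ k in atTop, (∀ j ∈ Finset.range J, ∀ (R : Finset (Fin (m k)))
      (C : Finset (Fin (n k))), ρ j * ((m k : ℝ) * n k) ≤ R.card * C.card →
        δf (ρ j) * ((m k : ℝ) * n k) < ∑ x ∈ R, ∑ y ∈ C, P k x y) ∧ 0 < m k ∧ 0 < n k := by
    refine Filter.Eventually.and ?_
      ((hm.eventually_gt_atTop 0).and (hn.eventually_gt_atTop 0))
    rw [Filter.eventually_all_finset]
    intro j _
    exact hδf (ρ j) (hρ j)
  obtain ⟨k₀, hk₀⟩ := Filter.eventually_atTop.1 hev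
  refine ⟨k₀, fun k hk => ?_⟩
  obtain ⟨hrect, hmk, hnk⟩ := hk₀ k hk.le
  have hM : (0:ℝ) < m k := by exact_mod_cast hmk
  have hN : (0:ℝ) < n k := by exact_mod_cast hnk
  have hMN : (0:ℝ) < (m k : ℝ) * n k := mul_pos hM hN
  have hMc : (m k : ℝ) = Fintype.card (Fin (m k)) := by simp
  have hNc : (n k : ℝ) = Fintype.card (Fin (n k)) := by simp
  have hrk : ((A k).rank : ℝ) ≤ rK ^ 2 := by
    rw [hrK2]
    have : ((A k).rank : ℝ) ≤ K := by exact_mod_cast hK k
    linarith
  have hmin : Pool.Agent.R208.Nuc.nuc (X k) ≤ Pool.Agent.R208.Nuc.nuc (A k) :=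
    (hX k).2 (A k) rfl
  have hnucA : Pool.Agent.R208.Nuc.nuc (A k) ≤ rK * L * Real.sqrt (m k * n k) := by
    refine abs_le_of_sq_le_sq' ?_ (by positivity) |>.2
    calc Pool.Agent.R208.Nuc.nuc (A k) ^ 2 ≤ (A k).rank * ∑ a, ∑ b, A k a b ^ 2 :=
          Pool.Agent.R208.Nuc.nuc_sq_le (A k)
      _ ≤ rK ^ 2 * (L ^ 2 * (m k * n k)) := by
          refine mul_le_mul hrk ?_ (Finset.sum_nonneg fun a _ =>
            Finset.sum_nonneg fun b _ => sq_nonneg _) (by positivity)
          calc ∑ a, ∑ b, A k a b ^ 2 ≤ ∑ _a : Fin (m k), ∑ _b : Fin (n k), L ^ 2 := by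
                refine Finset.sum_le_sum fun a _ => Finset.sum_le_sum fun b _ => ?_
                rw [← sq_abs]; exact pow_le_pow_left₀ (abs_nonneg _) (hAL k a b) 2
            _ = L ^ 2 * (m k * n k) := by
                simp only [Finset.sum_const, nsmul_eq_mul, Finset.card_univ, Fintype.card_fin]
                ring
      _ = (rK * L * Real.sqrt (m k * n k)) ^ 2 := by
          rw [mul_pow _ (Real.sqrt _), Real.sq_sqrt hMN.le]; ring
  have hnucD : Pool.Agent.R208.Nuc.nuc (X k - A k) ≤ 2 * rK * L * Real.sqrt (m k * n k) := by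
    have := Pool.Agent.R208.Nuc.nuc_sub_le (X k) (A k)
    linarith
  obtain ⟨σ, a, b, hsc, hdec⟩ := Pool.Agent.R208.Nuc.exists_scaled (X k - A k) (m k) (n k)
    (2 * rK * L) hM hN hnucD
  have hDP : ∀ x y, (X k - A k) x y * P k x y = 0 := by
    intro x y
    have h1 := congrFun (congrFun (hX k).1 x) y
    rw [Matrix.hadamard_apply, Matrix.hadamard_apply] at h1
    rw [Matrix.sub_apply, sub_mul, h1, sub_self]
  obtain ⟨R, C, hR, hC, hgood⟩ := hmulti (Fin (m k)) (Fin (n k)) (Fin (n k)) (m k) (n k) σ a b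
    (X k - A k) (P k) hM hN hMc hNc hsc hdec (hP k) hDP hrect
  have hfinal := Pool.Agent.R208.Nuc.final_bound (A k) (X k) (m k) (n k) rK L η hM hN hMc hNc hrK
    hL hη hrk (hAL k) hmin R C hR hC hgood
  rw [Real.dist_eq, sub_zero, abs_of_nonneg (fbar_nonneg _)]
  unfold fbar
  rw [Real.sqrt_lt' hζ, div_lt_iff₀ hMN]
  refine lt_of_le_of_lt hfinal (mul_lt_mul_of_pos_right ?_ hMN)
  have h1 : η ^ 2 ≤ η := by nlinarith
  have h2 : η ^ 2 + 8 * (rK * L) * (rK * η * (1 + 2 * L)) + 8 * η ^ 2 * L ^ 2 ≤ η * Cst := by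
    have h3 : 8 * η ^ 2 * L ^ 2 ≤ 8 * η * L ^ 2 := by
      have := mul_le_mul_of_nonneg_right h1 (show 0 ≤ 8 * L ^ 2 by positivity)
      linarith
    rw [hCst]
    linarith
  have h4 : η * Cst ≤ ζ ^ 2 / 2 := by
    calc η * Cst ≤ ζ ^ 2 / (2 * Cst) * Cst := mul_le_mul_of_nonneg_right hη2 hCpos.le
      _ = ζ ^ 2 / 2 := by field_simp
  have h5 : 0 < ζ ^ 2 := by positivity
  linarith

end Pool.Agent.Results.MP_afaa81_pr.NuclearRecovery
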