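import Pool.Agent.R979.NN.Final

/-!
# Universal recovery by unconstrained nuclear norm minimisation

If a sequence of binary matrices `P k` (whose numbers of rows and of columns tend to infinity)
admits stable recovery of low rank matrices, and the matrices `A k` have uniformly bounded rank and
uniformly bounded entries, then every choice of minimisers of the nuclear norm among the matrices
which agree with `A k` at the revealed positions, without any bound on their entries, satisfies
`‖B k - A k‖ → 0` in the normalised Frobenius norm.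
-/

set_option autoImplicit false

namespace Pool.Agent.Results.MP_afaa81_pr.UniversalRecovery

open Filter Topology Matrix Pool.Agent.R979.NN

/-- the normalised Frobenius norm -/
noncomputable def normF {m n : ℕ} (A : Matrix (Fin m) (Fin n) ℝ) : ℝ :=
  √(1 / ((m : ℝ) * n) * ∑ i, ∑ j, A i j ^ 2)

/-- the sequence `P` admits stable recovery of low rank matrices -/
def StableRecovery (m n : ℕ → ℕ) (P : ∀ k, Matrix (Fin (m k)) (Fin (n k)) ℝ) : Prop :=
  ∀ K L ε : ℝ, 0 < K → 0 < L → 0 < ε → ∃ δ : ℝ, 0 < δ ∧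
    ∀ A B : ∀ k, Matrix (Fin (m k)) (Fin (n k)) ℝ,
      (∀ k, ((A k).rank : ℝ) ≤ K) → (∀ k, ((B k).rank : ℝ) ≤ K) →
      (∀ k i j, |A k i j| ≤ L) → (∀ k i j, |B k i j| ≤ L) →
      limsup (fun k => normF ((A k - B k) ⊙ P k)) atTop ≤ δ →
      limsup (fun k => normF (A k - B k)) atTop ≤ ε

/-- `B` is a nuclear norm minimiser for `(A, P)` -/
def IsMinimiser {m n : ℕ} (A P B : Matrix (Fin m) (Fin n) ℝ) : Prop :=
  B ⊙ P = A ⊙ P ∧ ∀ B' : Matrix (Fin m) (Fin n) ℝ, B' ⊙ P = A ⊙ P → nuc B ≤ nuc B'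

lemma normF_le {m n : ℕ} {A : Matrix (Fin m) (Fin n) ℝ} {c : ℝ} (hc : 0 ≤ c)
    (h : ∑ i, ∑ j, A i j ^ 2 ≤ c ^ 2 * (m * n)) : normF A ≤ c := by
  unfold normF
  rw [Real.sqrt_le_left hc]
  have hmn : (0 : ℝ) ≤ (m : ℝ) * n := by positivity
  rcases eq_or_lt_of_le hmn with h0 | h0
  · rw [← h0, div_zero, zero_mul]
    positivity
  · rw [one_div, inv_mul_le_iff₀ h0, mul_comm]
    exact h

lemma spread_of_stable {m n : ℕ → ℕ} {P : ∀ k, Matrix (Fin (m k)) (Fin (n k)) ℝ}
    (hm : Tendsto m atTop atTop) (hn : Tendsto n atTop atTop)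
    (hP : ∀ k i j, P k i j = 0 ∨ P k i j = 1) (hst : StableRecovery m n P) : Spread m n P := by
  classical
  intro β hβ
  obtain ⟨δ, hδ, h⟩ := hst 1 1 (√β / 2) one_pos one_pos (by positivity)
  refine ⟨δ ^ 2, by positivity, ?_⟩
  by_contra hcon
  rw [not_eventually] at hcon
  have hex : ∀ k, ∃ A : Matrix (Fin (m k)) (Fin (n k)) ℝ, (A.rank : ℝ) ≤ 1 ∧
      (∀ i j, |A i j| ≤ 1) ∧ normF (A ⊙ P k) ≤ δ ∧
      ((¬ ∀ (S : Finset (Fin (m k))) (T : Finset (Fin (n k))), β * (m k * n k) ≤ S.card * T.card →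
      δ ^ 2 * (m k * n k) < ∑ a ∈ S, ∑ b ∈ T, P k a b) → 0 < m k → 0 < n k → √β ≤ normF A) := by
    intro k
    by_cases hbad : ∀ (S : Finset (Fin (m k))) (T : Finset (Fin (n k))),
        β * (m k * n k) ≤ S.card * T.card → δ ^ 2 * (m k * n k) < ∑ a ∈ S, ∑ b ∈ T, P k a b
    · refine ⟨0, by simp, by simp, ?_, fun hb => absurd hbad hb⟩
      refine normF_le hδ.le ?_
      simp
      positivity
    · push Not at hbad
      obtain ⟨S, T, h1, h2⟩ := hbad
      set A : Matrix (Fin (m k)) (Fin (n k)) ℝ :=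
        Matrix.vecMulVec (fun a => if a ∈ S then 1 else 0) (fun b => if b ∈ T then 1 else 0)
        with hA
      have hAab : ∀ a b, A a b = if a ∈ S ∧ b ∈ T then 1 else 0 := by
        intro a b
        rw [hA, Matrix.vecMulVec_apply]
        by_cases ha : a ∈ S <;> by_cases hb : b ∈ T <;> simp [ha, hb]
      refine ⟨A, ?_, ?_, ?_, ?_⟩
      · have h3 := Matrix.rank_vecMulVec_le (R := ℝ)
          (fun a : Fin (m k) => if a ∈ S then (1 : ℝ) else 0)
          (fun b : Fin (n k) => if b ∈ T then (1 : ℝ) else 0)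
        have h5 : (A.rank : ℝ) ≤ ((1 : ℕ) : ℝ) := Nat.cast_le.2 h3
        rwa [Nat.cast_one] at h5
      · intro i j
        rw [hAab]
        split_ifs <;> simp
      · refine normF_le hδ.le (le_trans (le_of_eq ?_) h2)
        have h4 : ∀ i j, (A ⊙ P k) i j ^ 2 = if i ∈ S then (if j ∈ T then P k i j else 0) else 0 := by
          intro i j
          rw [Matrix.hadamard_apply, hAab]
          by_cases hi : i ∈ S <;> by_cases hj : j ∈ T <;> simp [hi, hj]
          rcases hP k i j with h0 | h0 <;> simp [h0]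
        simp_rw [h4]
        rw [← Finset.sum_filter_add_sum_filter_not Finset.univ (fun i => i ∈ S)]
        rw [Finset.sum_eq_zero (s := Finset.univ.filter fun i => ¬ i ∈ S), add_zero]
        · rw [Finset.filter_univ_mem]
          refine Finset.sum_congr rfl fun a ha => ?_
          simp [ha]
        · intro i hi
          simp [(Finset.mem_filter.1 hi).2]
      · intro _ hmk hnk
        have hmk' : (0 : ℝ) < m k := by exact_mod_cast hmk
        have hnk' : (0 : ℝ) < n k := by exact_mod_cast hnk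
        unfold normF
        refine Real.sqrt_le_sqrt ?_
        rw [one_div, le_inv_mul_iff₀ (mul_pos hmk' hnk'), mul_comm]
        refine h1.trans (le_of_eq ?_)
        have h4 : ∀ i j, A i j ^ 2 = (if i ∈ S then 1 else 0) * (if j ∈ T then 1 else 0) := by
          intro i j
          rw [hAab]
          by_cases hi : i ∈ S <;> by_cases hj : j ∈ T <;> simp [hi, hj]
        simp_rw [h4]
        rw [← Finset.sum_mul_sum]
        simp
  choose A hA1 hA2 hA3 hA4 using hex
  have hlim := h A (fun _ => 0) hA1 (by simp) hA2 (by simp) (by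
    simp only [sub_zero]
    refine limsup_le_of_le ?_ (Eventually.of_forall hA3)
    exact isCoboundedUnder_le_of_le (x := 0) atTop fun k => Real.sqrt_nonneg _)
  simp only [sub_zero] at hlim
  have hbdd : IsBoundedUnder (· ≤ ·) atTop fun k => normF (A k) := by
    refine isBoundedUnder_of ⟨1, fun k => normF_le zero_le_one ?_⟩
    have := fsq_le_of_abs_le (hA2 k)
    exact this
  have hlt : limsup (fun k => normF (A k)) atTop < √β := by
    have : 0 < √β := Real.sqrt_pos.2 hβ
    linarith
  have hev := eventually_lt_of_limsup_lt hlt hbdd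
  obtain ⟨k, hk1, hk2, hk3, hk4⟩ := (hcon.and_eventually (hev.and
    ((hm.eventually_gt_atTop 0).and (hn.eventually_gt_atTop 0)))).exists
  exact absurd (hA4 k hk1 hk3 hk4) (not_le.2 hk2)

/-- **Universal recovery by unconstrained nuclear norm minimisation.** -/
theorem result (m n : ℕ → ℕ) (hm : Tendsto m atTop atTop) (hn : Tendsto n atTop atTop)
    (P : ∀ k, Matrix (Fin (m k)) (Fin (n k)) ℝ) (hP : ∀ k i j, P k i j = 0 ∨ P k i j = 1)
    (hst : StableRecovery m n P)
    (A : ∀ k, Matrix (Fin (m k)) (Fin (n k)) ℝ) (K : ℕ) (hK : ∀ k, (A k).rank ≤ K)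
    (L : ℝ) (hL : ∀ k i j, |A k i j| ≤ L)
    (B : ∀ k, Matrix (Fin (m k)) (Fin (n k)) ℝ) (hB : ∀ k, IsMinimiser (A k) (P k) (B k)) :
    Tendsto (fun k => normF (B k - A k)) atTop (𝓝 0) := by
  have hS := spread_of_stable hm hn hP hst
  have hrank : ∀ k, ((A k).rank : ℝ) ≤ K := fun k => by exact_mod_cast hK k
  have hnuc : ∀ k, nuc (B k) ≤ nuc (A k) := fun k => (hB k).2 _ rfl
  have hBP : ∀ k a b, P k a b = 1 → B k a b = A k a b := by
    intro k a b h
    have h1 := congrFun (congrFun (hB k).1 a) b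
    rw [Matrix.hadamard_apply, Matrix.hadamard_apply, h, mul_one, mul_one] at h1
    exact h1
  rw [Metric.tendsto_atTop']
  intro ε hε
  have h1 := main hm hn hP hS A B hrank hL hBP hnuc (ε := (ε / 2) ^ 2) (by positivity)
  rw [eventually_atTop] at h1
  obtain ⟨k0, h2⟩ := h1
  refine ⟨k0, fun k hk => ?_⟩
  have h3 : normF (B k - A k) ≤ ε / 2 := normF_le (by positivity) (h2 k hk.le).le
  have h4 : 0 ≤ normF (B k - A k) := Real.sqrt_nonneg _
  rw [Real.dist_eq, sub_zero, abs_of_nonneg h4]
  linarith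

end Pool.Agent.Results.MP_afaa81_pr.UniversalRecovery
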